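import Pool.Agent.MP_6072c5_lc.H77.Final

open Pool.Agent.MP_62ad46_lc.H18 Pool.Agent.MP_6072c5_lc.H80 Cardinal

namespace Pool.Agent.Results.MP_6072c5_lc.CofinalCovers

/-- Let `M` be a model of `PA` of uncountable regular cardinality in which every nonstandard
initial interval has the cardinality of `M`. Then above every degree there is a degree that has a
minimal cover. -/
theorem result (M : Type) [CommSemiring M] [LinearOrder M] [IsPA M] (h0 : ℵ₀ < #M)
    (hr : (#M).IsRegular) (hM : ∀ n ∉ omega M, #M ≤ #{x : M | x ≤ n}) (c : Deg M) :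
    ∃ a b, c ≤ a ∧ MinCover a b := by
  obtain ⟨C⟩ := c
  obtain ⟨A, X, h1, h2⟩ := Pool.Agent.MP_6072c5_lc.H77.exists_minCover h0 hr hM C
  exact ⟨deg A, deg (join A X), deg_le_iff.2 h1, h2⟩

end Pool.Agent.Results.MP_6072c5_lc.CofinalCovers
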