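import Pool.Agent.MP_6072c5_lc.U71.Main

open Pool.Agent.MP_6072c5_lc.U71 Cardinal

namespace Pool.Agent.Results.MP_6072c5_lc.NoCone

universe u

/-- An uncountable saturated model of `PA` has no cone of minimal covers: above every degree there
is a degree that is not a minimal cover of any degree. -/
theorem result (M : Type u) [CommSemiring M] [LinearOrder M] [IsPA M] (h₀ : ℵ₀ < #M)
    (hS : Sat #M M) (c : Deg M) : ∃ b, c ≤ b ∧ ∀ a, ¬ MinCover a b :=
  no_cone ⟨hS, h₀⟩ c

end Pool.Agent.Results.MP_6072c5_lc.NoCone
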