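import Pool.Agent.MP_6072c5_lc.U71.Main
import Pool.Agent.MP_6072c5_lc.U71.Model

open Pool.Agent.MP_6072c5_lc.U71 Cardinal

namespace Pool.Agent.Results.MP_6072c5_lc.NoConeModel

/-- There is a countably saturated model of `PA` without a cone of minimal covers. -/
theorem result : ∃ (M : Type 1) (_ : CommSemiring M) (_ : LinearOrder M) (_ : IsPA M),
    Sat (aleph 1) M ∧ ∀ c : Deg M, ∃ b, c ≤ b ∧ ∀ a, ¬ MinCover a b := by
  obtain ⟨M, a, b, c, h1, h2⟩ := exists_sat_univ.{0}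
  exact ⟨M, a, b, c, SatM.s1 ⟨h1, h2⟩, no_cone ⟨h1, h2⟩⟩

end Pool.Agent.Results.MP_6072c5_lc.NoConeModel
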