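import Pool.Agent.MP_6072c5_lc.H80.Cover

open Pool.Agent.MP_62ad46_lc.H18 Pool.Agent.MP_6072c5_lc.H80 Cardinal

namespace Pool.Agent.Results.MP_6072c5_lc.OmegaCover

/-- In an `ℵ₁`-saturated model of `PA`, every degree that is not above the degree of the standard
cut has a minimal cover, namely its join with the degree of the standard cut. -/
theorem result (M : Type) [CommSemiring M] [LinearOrder M] [IsPA M] (hS : Sat (aleph 1) M)
    (a : Deg M) (ha : ¬ deg (omega M) ≤ a) :
    ∃ b, IsLUB {a, deg (omega M)} b ∧ MinCover a b := by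
  obtain ⟨X⟩ := a
  have ha : ¬ Red (omega M) X := fun h => ha (deg_le_iff.2 h)
  refine ⟨deg (join X (omega M)), ⟨?_, ?_⟩, minCover_join hS ha⟩
  · rintro _ (rfl | rfl)
    · exact deg_le_iff.2 (red_join_left _ _)
    · exact deg_le_iff.2 (red_join_right _ _)
  · rintro ⟨Z⟩ h
    exact deg_le_iff.2 (red_join (deg_le_iff.1 (h (Or.inl rfl))) (deg_le_iff.1 (h (Or.inr rfl))))

end Pool.Agent.Results.MP_6072c5_lc.OmegaCover
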